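import Pool.Agent.KBS.SMain

set_option autoImplicit false

open Matrix Pool.Agent.KBS.S
open Pool.Agent.KBS (Chain bd IsBd InfiniteTrdeg)

namespace Pool.Agent.Results.MP_d72c81_ag.PrimeFields

/-- Rational algebraic K-theory of commutative rings and its part of weight `w`,
`K_(n+1)(R)_ℚ^(w)`, defined by the primitive elements of the homology of the general linear groups
and the operation `ψ²` (`IsClass`). Every cycle of positive degree of the groups `GL_m(𝔽_p)` is a
boundary. For all `n` and `w` the vanishing of `K_(n+1)(F)_ℚ^(w)` for all fields `F` of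
characteristic zero is equivalent to a uniform form of this for all prime fields; to the vanishing
or the smallness for the ring `∏ 𝔽_p`; to the vanishing for the algebraic numbers together with
the smallness for `ℂ`; and to a uniform vanishing for all number fields. -/
theorem result (n w : ℕ) :
    (∀ (p : ℕ) (_ : Fact p.Prime) (m : ℕ) (z : Chain (GL (Fin m) (ZMod p)) (n + 1)),
      bd _ n z = 0 → IsBd z) ∧
    List.TFAE [
      ∀ (F : Type) (_ : Field F) (_ : CharZero F), Vanishes F n w,
      Vanishes ℂ n w,
      ∃ (K : Type) (_ : Field K) (_ : CharZero K) (_ : IsAlgClosed K),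
        InfiniteTrdeg K ∧ Vanishes K n w,
      Vanishes (AlgebraicClosure ℚ) n w ∧ Small ℂ n w,
      Vanishes (∀ p : Nat.Primes, ZMod p) n w,
      Small (∀ p : Nat.Primes, ZMod p) n w,
      Uniform n w,
      UniformClosure n w,
      UniformNumber n w] :=
  Pool.Agent.KBS.S.main n w

end Pool.Agent.Results.MP_d72c81_ag.PrimeFields
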